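import Pool.Agent.helper53.PV.SpecF

/-!
# Row pvf:FPA (MP_376aaf_an): a path through a given sequence of points
-/

set_option autoImplicit false

open scoped Topology
open Filter

namespace Pool.Agent.PV

open Pool.Agent.CZ

/-- the paths `γ_N` -/
noncomputable def FPA_g {Y : Type} [TopologicalSpace Y] [PathConnectedSpace Y] (y : ℕ → Y) : ℕ → ℝ → Y
  | 0 => fun _ => y 0
  | N + 1 => fun t => if t ≤ (N : ℝ) then FPA_g y N t
      else (PathConnectedSpace.somePath (y N) (y (N + 1))).extend (t - N)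

theorem FPA_ge {Y : Type} [TopologicalSpace Y] [PathConnectedSpace Y] (y : ℕ → Y) (N : ℕ) (t : ℝ) (ht : (N : ℝ) ≤ t) :
    FPA_g y N t = y N := by
  cases N with
  | zero => rfl
  | succ N =>
    have h1 : ¬ t ≤ (N : ℝ) := by
      push_cast at ht
      linarith
    show (if t ≤ (N : ℝ) then FPA_g y N t
      else (PathConnectedSpace.somePath (y N) (y (N + 1))).extend (t - N)) = y (N + 1)
    rw [if_neg h1]
    apply Path.extend_of_one_le
    push_cast at ht
    linarith

theorem FPA_cont {Y : Type} [TopologicalSpace Y] [PathConnectedSpace Y] (y : ℕ → Y) (N : ℕ) :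
    Continuous (FPA_g y N) := by
  induction N with
  | zero => exact continuous_const
  | succ N ih =>
    show Continuous fun t => if t ≤ (N : ℝ) then FPA_g y N t
      else (PathConnectedSpace.somePath (y N) (y (N + 1))).extend (t - N)
    refine Continuous.if_le ih ((Path.continuous_extend _).comp (continuous_id.sub continuous_const)) continuous_id
      continuous_const ?_
    intro t ht
    have ht' : t = (N : ℝ) := ht
    rw [FPA_ge y N t ht'.ge]
    show y N = (PathConnectedSpace.somePath (y N) (y (N + 1))).extend (t - N)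
    rw [ht', sub_self, Path.extend_zero]

theorem FPA_step {Y : Type} [TopologicalSpace Y] [PathConnectedSpace Y] (y : ℕ → Y) (N : ℕ) (t : ℝ) (ht : t ≤ (N : ℝ)) :
    FPA_g y (N + 1) t = FPA_g y N t := by
  show (if t ≤ (N : ℝ) then FPA_g y N t
      else (PathConnectedSpace.somePath (y N) (y (N + 1))).extend (t - N)) = _
  rw [if_pos ht]

theorem FPA_stat {Y : Type} [TopologicalSpace Y] [PathConnectedSpace Y] (y : ℕ → Y) (N M : ℕ) (hNM : N ≤ M) (t : ℝ)
    (ht : t ≤ (N : ℝ)) : FPA_g y M t = FPA_g y N t := by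
  induction M, hNM using Nat.le_induction with
  | base => rfl
  | succ M hM ih =>
    rw [FPA_step y M t (ht.trans (by exact_mod_cast hM)), ih]

theorem FPA : FPA_stmt := by
  intro Y _ _ y
  refine ⟨⟨fun t => FPA_g y ⌈t⌉₊ t, ?_⟩, ?_⟩
  · rw [continuous_iff_continuousAt]
    intro t₀
    have h1 : ContinuousAt (FPA_g y (⌈t₀⌉₊ + 1)) t₀ := (FPA_cont y _).continuousAt
    refine h1.congr ?_
    have h2 : t₀ < ((⌈t₀⌉₊ + 1 : ℕ) : ℝ) := by
      push_cast
      have := Nat.le_ceil t₀
      linarith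
    filter_upwards [Iio_mem_nhds h2] with t ht
    exact FPA_stat y ⌈t⌉₊ (⌈t₀⌉₊ + 1) (Nat.ceil_le.2 (le_of_lt ht)) t (Nat.le_ceil t)
  · intro j
    show FPA_g y ⌈(j : ℝ)⌉₊ (j : ℝ) = y j
    rw [Nat.ceil_natCast]
    exact FPA_ge y j _ le_rfl

end Pool.Agent.PV
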