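import Pool.Agent.helper77.PV.SpecB

/-!
# Row pv:LPO (MP_376aaf_an): idempotents intertwined by a polynomial
-/

set_option autoImplicit false

open scoped Matrix Topology
open Filter

namespace Pool.Agent.PV

open Pool.Agent.CZ

attribute [local instance] Matrix.linftyOpNormedRing Matrix.linftyOpNormedAlgebra

theorem LPO_E (A : Type) [Ring A] (ι κ : Type) [Fintype ι] [Fintype κ] (e : Matrix ι ι A)
    (f : Matrix κ κ A) (he : e * e = e) (hf : f * f = f) (x : Matrix ι κ A) (y : Matrix κ ι A)
    (h1 : x * y = e) (h2 : y * x = f) : k0 e he = k0 f hf := by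
  unfold k0 cls
  rw [QuotientAddGroup.eq_iff_sub_mem]
  refine AddSubgroup.subset_closure (Or.inl ⟨_, _, ⟨x.submatrix (Fintype.equivFin ι).symm (Fintype.equivFin κ).symm,
    y.submatrix (Fintype.equivFin κ).symm (Fintype.equivFin ι).symm, ?_, ?_⟩, rfl⟩)
  · rw [Matrix.submatrix_mul_equiv, h1]
  · rw [Matrix.submatrix_mul_equiv, h2]

theorem LPO_S (A : Type) [Ring A] (ι : Type) [Fintype ι] (e f : Matrix ι ι A) (he : e * e = e)
    (hf : f * f = f) (hs : (e + f) * (e + f) = e + f) (hef : e * f = 0) (hfe : f * e = 0) :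
    k0 (e + f) hs = k0 e he + k0 f hf := by
  unfold k0 cls
  rw [← QuotientAddGroup.mk_add, QuotientAddGroup.eq_iff_sub_mem]
  refine AddSubgroup.subset_closure (Or.inr ⟨Fintype.card ι,
    e.submatrix (Fintype.equivFin ι).symm (Fintype.equivFin ι).symm,
    f.submatrix (Fintype.equivFin ι).symm (Fintype.equivFin ι).symm, ?_, ?_, ?_, ?_, ?_, ?_⟩)
  · rw [Matrix.submatrix_mul_equiv, he]
  · rw [Matrix.submatrix_mul_equiv, hf]
  · have h1 : e.submatrix (Fintype.equivFin ι).symm (Fintype.equivFin ι).symm +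
        f.submatrix (Fintype.equivFin ι).symm (Fintype.equivFin ι).symm =
        (e + f).submatrix (Fintype.equivFin ι).symm (Fintype.equivFin ι).symm := rfl
    rw [h1, Matrix.submatrix_mul_equiv, hs]
  · rw [Matrix.submatrix_mul_equiv, hef, Matrix.submatrix_zero]
    rfl
  · rw [Matrix.submatrix_mul_equiv, hfe, Matrix.submatrix_zero]
    rfl
  · rw [sub_sub]
    rfl

section bd

variable {A : Type} [Ring A] {ι : Type} [Fintype ι] {d : ℕ}

/-- block diagonal matrices -/
def LPO_bd (M : Fin d → Matrix ι ι A) : Matrix (Fin d × ι) (Fin d × ι) A :=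
  Matrix.of fun p q => if p.1 = q.1 then M p.1 p.2 q.2 else 0

theorem LPO_ap (M : Fin d → Matrix ι ι A) (p q : Fin d × ι) :
    LPO_bd M p q = if p.1 = q.1 then M p.1 p.2 q.2 else 0 := rfl

theorem LPO_left (M : Fin d → Matrix ι ι A) (a : Matrix (Fin d × ι) (Fin d × ι) A) (p q : Fin d × ι) :
    (LPO_bd M * a) p q = ∑ k, M p.1 p.2 k * a (p.1, k) q := by
  rw [Matrix.mul_apply, Fintype.sum_prod_type, Finset.sum_eq_single p.1]
  · refine Finset.sum_congr rfl fun k _ => ?_
    unfold LPO_bd
    rw [Matrix.of_apply, if_pos rfl]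
  · intro r _ hr
    refine Finset.sum_eq_zero fun k _ => ?_
    unfold LPO_bd
    rw [Matrix.of_apply, if_neg (fun h => hr h.symm), zero_mul]
  · intro h
    exact absurd (Finset.mem_univ _) h

theorem LPO_right (M : Fin d → Matrix ι ι A) (a : Matrix (Fin d × ι) (Fin d × ι) A) (p q : Fin d × ι) :
    (a * LPO_bd M) p q = ∑ k, a p (q.1, k) * M q.1 k q.2 := by
  rw [Matrix.mul_apply, Fintype.sum_prod_type, Finset.sum_eq_single q.1]
  · refine Finset.sum_congr rfl fun k _ => ?_
    unfold LPO_bd
    rw [Matrix.of_apply, if_pos rfl]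
  · intro r _ hr
    refine Finset.sum_eq_zero fun k _ => ?_
    unfold LPO_bd
    rw [Matrix.of_apply, if_neg hr, mul_zero]
  · intro h
    exact absurd (Finset.mem_univ _) h

theorem LPO_mul (M N : Fin d → Matrix ι ι A) : LPO_bd M * LPO_bd N = LPO_bd (fun i => M i * N i) := by
  ext p q
  rw [LPO_left, LPO_ap]
  by_cases h : p.1 = q.1
  · rw [if_pos h]
    show _ = (M p.1 * N p.1) p.2 q.2
    rw [Matrix.mul_apply]
    refine Finset.sum_congr rfl fun k _ => ?_
    rw [LPO_ap, if_pos h]
  · rw [if_neg h]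
    refine Finset.sum_eq_zero fun k _ => ?_
    rw [LPO_ap, if_neg h, mul_zero]

theorem LPO_bdmap {B : Type} [Ring B] (φ : A → B) (hφ : φ 0 = 0) (M : Fin d → Matrix ι ι A) :
    (LPO_bd M).map φ = LPO_bd (fun i => (M i).map φ) := by
  ext p q
  rw [Matrix.map_apply, LPO_ap, LPO_ap]
  by_cases h : p.1 = q.1
  · rw [if_pos h, if_pos h]
    rfl
  · rw [if_neg h, if_neg h, hφ]

theorem LPO_idem (M : Fin d → Matrix ι ι A) (h : ∀ i, M i * M i = M i) : LPO_bd M * LPO_bd M = LPO_bd M := by
  rw [LPO_mul]
  congr 1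
  funext i
  exact h i

/-- the class of `diag(P, M_1, ..)` minus that of `diag(Q, M_1, ..)` -/
theorem LPO_cls (hd : 0 < d) (P Q : Matrix ι ι A) (hP : P * P = P) (hQ : Q * Q = Q) (M : Fin d → Matrix ι ι A)
    (hM : ∀ i, M i * M i = M i)
    (h1 : LPO_bd (fun i => if i.val = 0 then P else M i) * LPO_bd (fun i => if i.val = 0 then P else M i) =
      LPO_bd (fun i => if i.val = 0 then P else M i))
    (h2 : LPO_bd (fun i => if i.val = 0 then Q else M i) * LPO_bd (fun i => if i.val = 0 then Q else M i) =
      LPO_bd (fun i => if i.val = 0 then Q else M i)) :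
    k0 _ h1 - k0 _ h2 = k0 P hP - k0 Q hQ := by
  classical
  have key : ∀ (P : Matrix ι ι A) (hP : P * P = P)
      (h1 : LPO_bd (fun i => if i.val = 0 then P else M i) * LPO_bd (fun i => if i.val = 0 then P else M i) =
      LPO_bd (fun i => if i.val = 0 then P else M i))
      (h0 : LPO_bd (fun i : Fin d => if i.val = 0 then 0 else M i) * LPO_bd (fun i => if i.val = 0 then 0 else M i) =
      LPO_bd (fun i => if i.val = 0 then 0 else M i)), k0 _ h1 = k0 P hP + k0 _ h0 := by
    intro P hP h1 h0
    have h3 : LPO_bd (fun i : Fin d => if i.val = 0 then P else 0) * LPO_bd (fun i => if i.val = 0 then P else 0) =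
        LPO_bd (fun i => if i.val = 0 then P else 0) := by
      apply LPO_idem
      intro i
      by_cases hi : i.val = 0
      · rw [if_pos hi, hP]
      · rw [if_neg hi, mul_zero]
    have h4 : LPO_bd (fun i : Fin d => if i.val = 0 then P else M i) =
        LPO_bd (fun i => if i.val = 0 then P else 0) + LPO_bd (fun i => if i.val = 0 then 0 else M i) := by
      ext p q
      rw [Matrix.add_apply, LPO_ap, LPO_ap, LPO_ap]
      by_cases h : p.1 = q.1
      · rw [if_pos h, if_pos h, if_pos h]
        beta_reduce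
        by_cases hi : p.1.val = 0
        · rw [if_pos hi, if_pos hi, if_pos hi, Matrix.zero_apply, add_zero]
        · rw [if_neg hi, if_neg hi, if_neg hi, Matrix.zero_apply, zero_add]
      · rw [if_neg h, if_neg h, if_neg h, add_zero]
    have h5 : k0 _ h1 = k0 _ (h4 ▸ h1) := by
      congr 1
    have hz : LPO_bd (fun _ : Fin d => (0 : Matrix ι ι A)) = 0 := by
      ext p q
      rw [LPO_ap]
      beta_reduce
      rw [Matrix.zero_apply, Matrix.zero_apply, ite_self]
    rw [h5, LPO_S A (Fin d × ι) _ _ h3 h0 (h4 ▸ h1) ?_ ?_]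
    · congr 1
      refine LPO_E A (Fin d × ι) ι _ _ h3 hP (Matrix.of fun p k => if p.1.val = 0 then P p.2 k else 0)
        (Matrix.of fun k q => if q.1.val = 0 then P k q.2 else 0) ?_ ?_
      · ext p q
        rw [Matrix.mul_apply, LPO_ap]
        beta_reduce
        by_cases hi : p.1.val = 0
        · by_cases hj : q.1.val = 0
          · have h6 : p.1 = q.1 := Fin.ext (by omega)
            rw [if_pos h6, if_pos hi]
            conv_rhs => rw [← hP]
            rw [Matrix.mul_apply]
            refine Finset.sum_congr rfl fun k _ => ?_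
            rw [Matrix.of_apply, Matrix.of_apply, if_pos hi, if_pos hj]
          · have h6 : p.1 ≠ q.1 := fun h => hj (h ▸ hi)
            rw [if_neg h6]
            refine Finset.sum_eq_zero fun k _ => ?_
            rw [Matrix.of_apply, Matrix.of_apply, if_neg hj, mul_zero]
        · rw [if_neg hi, Matrix.zero_apply, ite_self]
          refine Finset.sum_eq_zero fun k _ => ?_
          rw [Matrix.of_apply, if_neg hi, zero_mul]
      · ext k l
        rw [Matrix.mul_apply, Fintype.sum_prod_type, Finset.sum_eq_single (⟨0, hd⟩ : Fin d)]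
        · conv_rhs => rw [← hP]
          rw [Matrix.mul_apply]
          refine Finset.sum_congr rfl fun m _ => ?_
          rw [Matrix.of_apply, Matrix.of_apply, if_pos rfl, if_pos rfl]
        · intro r _ hr
          refine Finset.sum_eq_zero fun m _ => ?_
          rw [Matrix.of_apply, if_neg (fun h => hr (Fin.ext h)), zero_mul]
        · intro h
          exact absurd (Finset.mem_univ _) h
    · rw [LPO_mul, ← hz]
      congr 1
      funext i
      by_cases hi : i.val = 0
      · rw [if_pos hi, if_pos hi, mul_zero]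
      · rw [if_neg hi, zero_mul]
    · rw [LPO_mul, ← hz]
      congr 1
      funext i
      by_cases hi : i.val = 0
      · rw [if_pos hi, zero_mul]
      · rw [if_neg hi, if_neg hi, mul_zero]
  have h0 : LPO_bd (fun i : Fin d => if i.val = 0 then 0 else M i) * LPO_bd (fun i => if i.val = 0 then 0 else M i) =
      LPO_bd (fun i => if i.val = 0 then 0 else M i) := by
    apply LPO_idem
    intro i
    by_cases hi : i.val = 0
    · rw [if_pos hi, mul_zero]
    · rw [if_neg hi, hM]
  rw [key P hP h1 h0, key Q hQ h2 h0]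
  abel

end bd

theorem LPO (hLFA : LFA_stmt) (hQIN : QIN_stmt) (hK0B : K0B_stmt) (hFUN : FUN_stmt) : LPO_stmt := by
  intro B A _ _ _ _ _ _ al io u c hZ ι _ _ d x X P Q hP hQ hd hX hx
  obtain ⟨L, hL, -⟩ := hLFA B A al io u c hZ ι d x X hd hX
  have hmapidem : ∀ k : ℕ, P.map (al ^ k : B ≃ₐ[ℂ] B) * P.map (al ^ k : B ≃ₐ[ℂ] B) = P.map (al ^ k : B ≃ₐ[ℂ] B) := by
    intro k
    rw [← Matrix.map_mul, hP]
  have hPh : LPO_bd (fun i : Fin d => if i.val = 0 then P else P.map (al ^ i.val : B ≃ₐ[ℂ] B)) *
      LPO_bd (fun i : Fin d => if i.val = 0 then P else P.map (al ^ i.val : B ≃ₐ[ℂ] B)) =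
      LPO_bd (fun i : Fin d => if i.val = 0 then P else P.map (al ^ i.val : B ≃ₐ[ℂ] B)) := by
    apply LPO_idem
    intro i
    by_cases hi : i.val = 0
    · rw [if_pos hi, hP]
    · rw [if_neg hi, hmapidem]
  have hQh : LPO_bd (fun i : Fin d => if i.val = 0 then Q else P.map (al ^ i.val : B ≃ₐ[ℂ] B)) *
      LPO_bd (fun i : Fin d => if i.val = 0 then Q else P.map (al ^ i.val : B ≃ₐ[ℂ] B)) =
      LPO_bd (fun i : Fin d => if i.val = 0 then Q else P.map (al ^ i.val : B ≃ₐ[ℂ] B)) := by
    apply LPO_idem
    intro i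
    by_cases hi : i.val = 0
    · rw [if_pos hi, hQ]
    · rw [if_neg hi, hmapidem]
  have hPeq : ∀ (i : Fin d) (k l : ι), (if i.val = 0 then P else P.map (al ^ i.val : B ≃ₐ[ℂ] B)) k l =
      (al ^ i.val : B ≃ₐ[ℂ] B) (P k l) := by
    intro i k l
    by_cases hi : i.val = 0
    · rw [if_pos hi, hi, pow_zero]
      rfl
    · rw [if_neg hi]
      rfl
  have hsucc : ∀ (k : ℕ) (b : B), al ((al ^ k : B ≃ₐ[ℂ] B) b) = (al ^ (k + 1) : B ≃ₐ[ℂ] B) b := by
    intro k b
    rw [pow_succ']
    rfl
  have hxe : ∀ (k : ℕ) (i j : ι), ∑ m, x k i m * (al ^ k : B ≃ₐ[ℂ] B) (P m j) = ∑ m, Q i m * x k m j := by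
    intro k i j
    have h1 := congrFun (congrFun (hx k) i) j
    rw [Matrix.mul_apply, Matrix.mul_apply] at h1
    exact h1
  have ha : aL d x * LPO_bd (fun i : Fin d => if i.val = 0 then P else P.map (al ^ i.val : B ≃ₐ[ℂ] B)) =
      LPO_bd (fun i : Fin d => if i.val = 0 then Q else P.map (al ^ i.val : B ≃ₐ[ℂ] B)) * aL d x := by
    ext p q
    rw [LPO_right, LPO_left]
    by_cases hp : p.1.val = 0
    · have e1 : ∀ k : ι, aL d x p (q.1, k) = x q.1.val p.2 k := by
        intro k
        unfold aL
        rw [Matrix.of_apply, if_pos hp]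
      have e2 : ∀ k : ι, aL d x (p.1, k) q = x q.1.val k q.2 := by
        intro k
        unfold aL
        rw [Matrix.of_apply, if_pos hp]
      simp only [e1, e2, hPeq, if_pos hp]
      exact hxe q.1.val p.2 q.2
    · have e1 : ∀ k : ι, aL d x p (q.1, k) = if p = (q.1, k) then 1 else 0 := by
        intro k
        unfold aL
        rw [Matrix.of_apply, if_neg hp]
      have e2 : ∀ k : ι, aL d x (p.1, k) q = if (p.1, k) = q then 1 else 0 := by
        intro k
        unfold aL
        rw [Matrix.of_apply, if_neg hp]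
      simp only [e1, e2, hPeq, if_neg hp]
      by_cases h : p.1 = q.1
      · rw [Finset.sum_eq_single p.2, Finset.sum_eq_single q.2]
        · rw [if_pos (show p = (q.1, p.2) from Prod.ext h rfl), if_pos (show (p.1, q.2) = q from Prod.ext h rfl),
            one_mul, mul_one, Matrix.map_apply, h]
        · intro k _ hk
          rw [if_neg (show ¬ (p.1, k) = q from fun h' => hk (Prod.ext_iff.1 h').2), mul_zero]
        · intro h'
          exact absurd (Finset.mem_univ _) h'
        · intro k _ hk
          rw [if_neg (show ¬ p = (q.1, k) from fun h' => hk (Prod.ext_iff.1 h').2.symm), zero_mul]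
        · intro h'
          exact absurd (Finset.mem_univ _) h'
      · rw [Finset.sum_eq_zero, Finset.sum_eq_zero]
        · intro k _
          rw [if_neg (show ¬ (p.1, k) = q from fun h' => h (Prod.ext_iff.1 h').1), mul_zero]
        · intro k _
          rw [if_neg (show ¬ p = (q.1, k) from fun h' => h (Prod.ext_iff.1 h').1), zero_mul]
  have hb : bL d x * (LPO_bd (fun i : Fin d => if i.val = 0 then P else P.map (al ^ i.val : B ≃ₐ[ℂ] B))).map al =
      LPO_bd (fun i : Fin d => if i.val = 0 then Q else P.map (al ^ i.val : B ≃ₐ[ℂ] B)) * bL d x := by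
    rw [LPO_bdmap _ (map_zero al)]
    ext p q
    rw [LPO_right, LPO_left]
    by_cases hp : p.1.val = 0
    · by_cases hq : q.1.val + 1 = d
      · have e1 : ∀ k : ι, bL d x p (q.1, k) = x d p.2 k := by
          intro k
          unfold bL
          rw [Matrix.of_apply, if_pos hp, if_pos hq]
        have e2 : ∀ k : ι, bL d x (p.1, k) q = x d k q.2 := by
          intro k
          unfold bL
          rw [Matrix.of_apply, if_pos hp, if_pos hq]
        simp only [e1, e2, Matrix.map_apply, hPeq, if_pos hp, hsucc, hq]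
        exact hxe d p.2 q.2
      · have e1 : ∀ k : ι, bL d x p (q.1, k) = 0 := by
          intro k
          unfold bL
          rw [Matrix.of_apply, if_pos hp, if_neg hq]
        have e2 : ∀ k : ι, bL d x (p.1, k) q = 0 := by
          intro k
          unfold bL
          rw [Matrix.of_apply, if_pos hp, if_neg hq]
        simp only [e1, e2, zero_mul, mul_zero]
    · have e1 : ∀ k : ι, bL d x p (q.1, k) = if q.1.val + 1 = p.1.val ∧ p.2 = k then -1 else 0 := by
        intro k
        unfold bL
        rw [Matrix.of_apply, if_neg hp]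
      have e2 : ∀ k : ι, bL d x (p.1, k) q = if q.1.val + 1 = p.1.val ∧ k = q.2 then -1 else 0 := by
        intro k
        unfold bL
        rw [Matrix.of_apply, if_neg hp]
      simp only [e1, e2, Matrix.map_apply, hPeq, if_neg hp, hsucc]
      by_cases h : q.1.val + 1 = p.1.val
      · rw [Finset.sum_eq_single p.2, Finset.sum_eq_single q.2]
        · rw [if_pos ⟨h, rfl⟩, if_pos ⟨h, rfl⟩, neg_one_mul, mul_neg_one, h]
        · intro k _ hk
          rw [if_neg (fun h' => hk h'.2), mul_zero]
        · intro h'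
          exact absurd (Finset.mem_univ _) h'
        · intro k _ hk
          rw [if_neg (fun h' => hk h'.2.symm), zero_mul]
        · intro h'
          exact absurd (Finset.mem_univ _) h'
      · rw [Finset.sum_eq_zero, Finset.sum_eq_zero]
        · intro k _
          rw [if_neg (fun h' => h h'.1), mul_zero]
        · intro k _
          rw [if_neg (fun h' => h h'.1), zero_mul]
  obtain ⟨w, hw⟩ := hQIN B A al io u c hZ (Fin d × ι) (aL d x) (bL d x) L _ _ hPh hQh hL ha hb
  refine ⟨w, ?_⟩
  rw [← hw]
  exact (LPO_cls (by omega) P Q hP hQ (fun i => P.map (al ^ i.val : B ≃ₐ[ℂ] B)) (fun i => hmapidem i.val) hPh hQh).symm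

end Pool.Agent.PV
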