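import Pool.Agent.helper45.PV.SpecG

/-!
# Row pvg:WSP (MP_376aaf_an): the wedge of two spaces
-/

set_option autoImplicit false

open scoped Matrix Topology

namespace Pool.Agent.PV

open Pool.Agent.CZ

/-- the wedge -/
def WSP_Y (Y₀ Y₁ : Type) (y₀ : Y₀) (y₁ : Y₁) : Type := {p : Y₀ × Y₁ // p.1 = y₀ ∨ p.2 = y₁}

section

variable {Y₀ Y₁ : Type} [TopologicalSpace Y₀] [TopologicalSpace Y₁] (y₀ : Y₀) (y₁ : Y₁)

instance WSP_top : TopologicalSpace (WSP_Y Y₀ Y₁ y₀ y₁) := instTopologicalSpaceSubtype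

/-- the projections and the inclusions -/
def WSP_p0 : C(WSP_Y Y₀ Y₁ y₀ y₁, Y₀) := ⟨fun p => p.1.1, continuous_fst.comp continuous_subtype_val⟩

def WSP_p1 : C(WSP_Y Y₀ Y₁ y₀ y₁, Y₁) := ⟨fun p => p.1.2, continuous_snd.comp continuous_subtype_val⟩

def WSP_i0 : C(Y₀, WSP_Y Y₀ Y₁ y₀ y₁) :=
  ⟨fun a => ⟨(a, y₁), Or.inr rfl⟩, (continuous_id.prodMk continuous_const).subtype_mk _⟩

def WSP_i1 : C(Y₁, WSP_Y Y₀ Y₁ y₀ y₁) :=
  ⟨fun b => ⟨(y₀, b), Or.inl rfl⟩, (continuous_const.prodMk continuous_id).subtype_mk _⟩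

end

theorem WSP : WSP_stmt := by
  intro Y₀ Y₁ _ _ _ _ _ _ _ _ y₀ y₁
  have hc : IsClosed {p : Y₀ × Y₁ | p.1 = y₀ ∨ p.2 = y₁} :=
    (isClosed_eq continuous_fst continuous_const).union (isClosed_eq continuous_snd continuous_const)
  haveI hcs : CompactSpace (WSP_Y Y₀ Y₁ y₀ y₁) := isCompact_iff_compactSpace.1 hc.isCompact
  haveI hms : TopologicalSpace.MetrizableSpace (WSP_Y Y₀ Y₁ y₀ y₁) :=
    (Topology.IsEmbedding.subtypeVal (p := fun p : Y₀ × Y₁ => p.1 = y₀ ∨ p.2 = y₁)).metrizableSpace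
  have hj : ∀ p : WSP_Y Y₀ Y₁ y₀ y₁, Joined p ⟨(y₀, y₁), Or.inl rfl⟩ := by
    rintro ⟨⟨a, b⟩, h⟩
    rcases h with h | h
    · have h' : a = y₀ := h
      subst h'
      exact ⟨(PathConnectedSpace.somePath b y₁).map (WSP_i1 a y₁).continuous⟩
    · have h' : b = y₁ := h
      subst h'
      exact ⟨(PathConnectedSpace.somePath a y₀).map (WSP_i0 y₀ b).continuous⟩
  haveI hpc : PathConnectedSpace (WSP_Y Y₀ Y₁ y₀ y₁) :=
    ⟨⟨⟨(y₀, y₁), Or.inl rfl⟩⟩, fun p q => (hj p).trans (hj q).symm⟩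
  refine ⟨WSP_Y Y₀ Y₁ y₀ y₁, inferInstance, hcs, hms, hpc, ⟨(y₀, y₁), Or.inl rfl⟩, pbC ℂ (WSP_p1 y₀ y₁),
    pbC ℂ (WSP_i0 y₀ y₁), pbC ℂ (WSP_p0 y₀ y₁), ⟨?_, ?_, ?_, ?_, ?_, ?_⟩, ?_, ?_⟩
  · intro x
    apply le_antisymm
    · rw [ContinuousMap.norm_le _ (norm_nonneg _)]
      intro p
      exact ContinuousMap.norm_coe_le_norm x (p.1.2)
    · rw [ContinuousMap.norm_le _ (norm_nonneg _)]
      intro b
      exact ContinuousMap.norm_coe_le_norm (pbC ℂ (WSP_p1 y₀ y₁) x) (WSP_i1 y₀ y₁ b)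
  · rintro c ⟨z, hz⟩
    refine ⟨c.comp (WSP_i1 y₀ y₁), ?_⟩
    have hz' : ∀ a : Y₀, c ⟨(a, y₁), Or.inr rfl⟩ = z := fun a => congrArg (fun f : C(Y₀, ℂ) => f a) hz
    ext ⟨⟨a, b⟩, h⟩
    show c ⟨(y₀, b), Or.inl rfl⟩ = c ⟨(a, b), h⟩
    rcases h with h | h
    · have h' : a = y₀ := h
      subst h'
      rfl
    · have h' : b = y₁ := h
      subst h'
      exact (hz' y₀).trans (hz' a).symm
  · intro x
    exact ⟨x y₁, rfl⟩
  · exact ContinuousMap.compRightAlgHom_continuous ℂ ℂ (WSP_i0 y₀ y₁)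
  · exact ContinuousMap.compRightAlgHom_continuous ℂ ℂ (WSP_p0 y₀ y₁)
  · intro d
    rfl
  · intro h
    rfl
  · intro g
    rfl

end Pool.Agent.PV
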